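import Mathlib
import Pool.Agent.N205.RT.Main
import Pool.Agent.N205.SG.Count

/-!
# The Tate conjecture for higher Chow groups and products of almost all abelian varieties of every
Newton stratum with all smooth schemes

Let `g i` (`i` in a finite set `I`) be positive integers, `B` any number and `d` a number such that
either `d ≤ 2`, or `d ≤ g i` and `g i` is three or at least five, for all `i` (`DimsU`).  By Honda and
Tate the irreducible polynomials in `weilPolys (p ^ a) g` correspond to the isogeny classes of the
simple abelian varieties over the field with `q = p ^ a` elements whose field `ℚ (π)` has degree
`2 g`; the characteristic polynomial of the Frobenius is a power of the polynomial (the polynomial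
itself if `a = 1` or if the abelian variety is ordinary).

Let `S i` be a **stratum** (`IsStratum p a (g i) t (S i)`), for instance the set of the Weil
polynomials of degree `2 g i` whose Newton polygon is a given one, or lies on or above a given one,
or any set in between, or the set of the Weil polynomials of given `p`-rank. The parameter `t` may be
`a` if the `p`-rank is at least two, and any number `t ≤ a (1 - 2 λ) - 1` where `λ` is the first slope
(normalised so that the supersingular polygon has slope one half), see `StrataFacts`: so every
stratum except for the supersingular one is included as soon as `a (1 - 2 λ) ≥ 2`.

There is a constant `C`, depending only on `g`, `d` and `B`, such that the following holds.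

**(1)** For all families `f i` in `S i` with the exception of a proportion at most
`C (p ^ t) ^ (-1 / 6) log (p ^ t)`, the statement `TateForIndep (p ^ a) f` holds: for all `s > 0`,
`Q = q ^ s`, all abelian varieties `A` over the field `k` with `Q` elements, isogenous to products of
powers of abelian varieties coming from the field with `q` elements whose characteristic polynomials
are powers of the `f i`, and **all smooth schemes `U`** over `k`, of any dimension, projective or not,
such that no power `α ^ N`, `N > 0`, of a root `α` of one of the `f i` is a product of powers (with
positive or negative exponents) of `q` and of eigenvalues of the Frobenius of `U` on the cohomology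
`H^*(U, ℚ_ℓ)` (`IsIndependent`; only those eigenvalues matter which contribute to the Frobenius
invariants in `H^i(A × U, ℚ_ℓ(j))`, for one `i` and `j` at a time):

* there are products `D j` of divisors on `A`, finitely many, depending only on `A`, such that the
  Frobenius invariants in `H^i(A × U, ℚ_ℓ(j))` (the elements on which the Frobenius acts as `Q ^ j`
  before the twist) are uniquely sums of products of the `D t` with the invariants in
  `H^(i - 2 c t)(U, ℚ_ℓ(j - c t))`, `c t` the codimension of `D t`;
* the regulator `CH^j(A × U, 2 j - i) ⊗ ℚ_ℓ → H^i(A × U, ℚ_ℓ(j))` is onto the Frobenius invariants **if
  and only if** this holds for `U` in the bidegrees `(i - 2 k, j - k)`, `0 ≤ k ≤ dim A`: **the Tate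
  conjecture for the higher Chow groups of `A × U` is equivalent to the one for `U`**, bidegree by
  bidegree;
* if this is the case for `U`, then the regulator is also onto the Frobenius invariants in bidegree
  `(i, j)` for **all** smooth schemes `V` with a proper surjective generically finite morphism from
  `A × U` to `V`, for instance for all isotrivial abelian schemes with fibre `A`, and more generally
  for all quotients of `A × U` by finite groups that are smooth.

No nilpotence of correspondences and no case of the conjectures of Tate and Beilinson is assumed for
`U`; for the abelian variety `A` nilpotence is a theorem of Kimura. The exceptional families do not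
depend on `U`, not even on its dimension.

**(2)** Let `χ₀` be any nonzero rational polynomial of degree at most `B`, for instance the
characteristic polynomial of Frobenius on the whole cohomology of a scheme `U₀` with total Betti
number at most `B`. With the exception of a proportion at most `C (p ^ t) ^ (-1 / 6) log (p ^ t)` of the
families, **all** schemes `U` which are tame relative to `χ₀` are independent: this is the case if the
eigenvalues of Frobenius of `U`, up to powers and up to a group of rank less than the `g i`, are
products of rational numbers, of roots of `χ₀` and of Weil numbers of degree less than `2 d` (`d ≥ 3`).

For example (`χ₀ = X - 1`): for almost all families the conjecture holds, in all bidegrees, for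
`A × U`, where `U` is any complement of hyperplanes in a projective space, or any linear variety (the
eigenvalues are roots of unity times powers of `q`); and if `d ≥ 3` for `A × U`, `U` any smooth curve
whose compactification has genus less than `d`, or (`χ₀` its characteristic polynomial) any given
smooth curve.

In the starting file `AlmostAllAbelianFactors` on this page the sets `S i` contain all ordinary
polynomials, the exceptional set depends on a number field `E` which contains powers of the
eigenvalues of `U` up to a group of rank less than the `g i`, and only products are considered.

The idea of the proof: by a sieve (helper521, helper484, and my modules SD, SG) almost all families in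
a stratum are such that each pair `α`, `q / α` of roots can be exchanged by a Galois automorphism which
fixes all the other roots of all the `f i`. So a product of roots of the `f i` and of an eigenvalue of
`U` can be a power of `q` only if the roots cancel in pairs. By duality for the `D j` and nilpotence
the motive of `A` is the sum of Tate twists, given by the `D j`, and of a motive on which the
Frobenius endomorphism of `A` has no eigenvalue which could contribute to the Frobenius invariants in
the cohomology of `A × U` (library `Y156.L`).
-/

set_option autoImplicit false

namespace Pool.Agent.Results.MP_81b968_ag.EveryScheme

open Polynomial Pool.Agent.N205.SG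

open Pool.Agent.N205.RT (TateForIndep)

/-- `StrataFacts`: the sets of the Weil polynomials with given Newton polygon, or with Newton
polygon on or above a given one, and the sets of those of given `p`-rank, are strata. -/
theorem result :
    (∀ {I : Type} [Fintype I] (g : I → ℕ) (_ : ∀ i, 0 < g i) (d : ℕ) (_ : DimsU g d) (B : ℕ),
      ∃ C : ℝ, ∀ p a t : ℕ, p.Prime → 0 < a → 0 < t → ∀ S : I → Set ℤ[X],
        (∀ i, IsStratum p a (g i) t (S i)) →
        (∀ i, (S i).Finite ∧ (4 ^ g i ≤ p ^ t → (S i).Nonempty)) ∧
        ({f : I → ℤ[X] | (∀ i, f i ∈ S i) ∧ ¬ TateForIndep (p ^ a) f}.ncard : ℝ) ≤
          C * (Real.log ((p ^ t : ℕ) : ℝ) * ((p ^ t : ℕ) : ℝ) ^ (-(1 / 6) : ℝ)) *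
            ∏ i, ((S i).ncard : ℝ) ∧
        ∀ χ₀ : ℚ[X], χ₀ ≠ 0 → χ₀.natDegree ≤ B →
          ({f : I → ℤ[X] | (∀ i, f i ∈ S i) ∧ ¬ TameIndep g d (p ^ a) χ₀ f}.ncard : ℝ) ≤
            C * (Real.log ((p ^ t : ℕ) : ℝ) * ((p ^ t : ℕ) : ℝ) ^ (-(1 / 6) : ℝ)) *
              ∏ i, ((S i).ncard : ℝ)) ∧
    StrataFacts :=
  ⟨fun g hg d hd B => indep_unif g hg d hd B (fun q f => TateForIndep q f)
    fun _ hq x hx => Pool.Agent.N205.RT.tate_indep g hg hq.one_lt x hx, strataFacts⟩

end Pool.Agent.Results.MP_81b968_ag.EveryScheme
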