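import Mathlib
import Pool.Agent.N578.LB.Final
import Pool.Agent.N205.RT.Main

/-!
# The Tate conjecture for higher Chow groups: exceptions are rare in every box of every lattice

Let `g i` (`i` in a finite set `I`) be positive integers and `n = ∑ g i`. For a prime power `q` a point `x` of `ℤ ^ n` gives
monic polynomials `h i` of degree `g i` and the polynomials `f i = X ^ (g i) h i (X + q / X)`; all Weil `q`-polynomials of
degree `2 g i` are of this form, and by Weil, Honda and Tate they correspond to the isogeny classes of abelian
varieties of dimension `g i` over the field with `q` elements (up to multiplicities).

The earlier theorem `EveryScheme` (helper205) treats the Weil polynomials of a Newton stratum (or stratum of given `p`-rank)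
together. Here we show that the exceptions are rare **everywhere**: for all `q` and all `B ≥ 2` they are a proportion
`O (B ^ (-1 / 3) log B)` of the points in every parallelepiped, with sides at least `B`, of every translate of a lattice of
finite index, where the index may have up to `B ^ (1 / 4)` prime divisors and the basis is arbitrary. The constant does
not depend on `q`, so that `B` can be much smaller than `q`, for instance `B = log q`, or a large constant. Diagonal
matrices give the residue classes modulo all numbers, in particular modulo the powers of the characteristic (Newton
strata; the condition `q ∤ tr (h i) ^ 2` forces the first slope to be smaller than `1 / 2`); the matrix of the coordinates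
given by the first coefficients of the `f i` is unimodular. Moreover there is a constant `R` such that for all `q ≥ R` every
point of `ℤ ^ n` has a good point at distance at most `R`.

The property of a good point has two parts: for all `A` and all schemes `U` with independent Frobenius eigenvalues, the regulator of `A × U` is onto the Frobenius
invariants in the bidegree `(i, j)` if and only if the ones of `U` in the bidegrees `(i - 2k, j - k)`, `0 ≤ k ≤ dim A`, are
(`TateForIndep`); and all tame varieties (all polynomials `χ` whose roots are, up to
powers and up to a group of rank smaller than the `g i`, products of rational numbers, of roots of `χ₀` and of Weil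
numbers of degree less than `2 d`, `d ≥ 3`) are independent of the `f i`, for the given `χ₀` of degree at most `D`, the
constants `C` and `R` depending only on `g`, `d` and `D`.

The proof pulls back the sieves of helper521 and helper205 by the matrix `A` (helper578, `N578/LB`).
-/

set_option autoImplicit false

namespace Pool.Agent.Results.MP_81b968_ag.LatticeBoxes

open Polynomial Pool.Agent.N205.SG Pool.Agent.N578.LB

open Pool.Agent.N205.RT (TateForIndep)

/-- For positive integers `g i`, `d` as in `DimsU` and all `D`, the property `TateForIndep q f` together with the
independence of all tame sets (`TameIndep g d q χ₀ f`) holds `InAllLatticesFor` the nonzero `χ₀` in `ℚ[X]` of degree at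
most `D`: for a constant `C`, all prime powers `q`, all `χ₀` and all `B ≥ 2`, in every parallelepiped with sides at least `B` of
every translate of a lattice whose index has at most `B ^ (1 / 4)` prime divisors the exceptions are a proportion
`≤ C B ^ (-1 / 3) log B`; and for a constant `R` and `q ≥ R` every point is at distance at most `R` from a good one. -/
theorem result {I : Type} [Fintype I] [DecidableEq I] (g : I → ℕ) (hg : ∀ i, 0 < g i) (d : ℕ) (hd : DimsU g d)
    (D : ℕ) : InAllLatticesFor g (J := {χ₀ : ℚ[X] // χ₀ ≠ 0 ∧ χ₀.natDegree ≤ D})
      (fun χ₀ q f => TateForIndep q f ∧ TameIndep g d q χ₀.1 f) :=
  indepLattices g hg d hd D (fun q f => TateForIndep q f) fun _ hq x hx => Pool.Agent.N205.RT.tate_indep g hg hq.one_lt x hx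

end Pool.Agent.Results.MP_81b968_ag.LatticeBoxes
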