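import Pool.Agent.N882.UE.OpnDim
import Pool.Agent.N882.UE.Tb

/-!
# MP_81b968_ag: higher Chow groups of principal open subschemes of affine spaces

`T : Homology k Ω` are data of motivic homology `M X i j = CH_j(X, i - 2 j) ⊗ ℚ` and of `ℓ`-adic homology
`E X i j = H_i(X, ℚ_ℓ(j)) ⊗ Ω` of the schemes `X` over the finite field `k` (over the algebraic closure), with
the Frobenius and the regulator. `IsTheory T` lists the known properties which are used. For smooth `X` of
pure dimension `D` the regulator `M X (2D-i) (D-j) → E X (2D-i) (D-j)` is the map `c^{i,j}` of the problem.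

`TB T X`: for all `i`, `j` the regulator is, after extension of scalars, an isomorphism of `M X i j` with the
space of the Frobenius invariant elements of `E X i j`, and the eigenvalue one is semisimple.
`FT True X`: `X` is separated and of finite type over `k`.

`opnS f` is the principal open subscheme `f_1 ⋯ f_r ≠ 0` of the affine space; `bform t l = ∑ t_ijl x_i y_j` and
`few k E = ∑_{(i, j) ∈ E} x_i y_j` are bilinear forms in `x_1, …, x_a` and `y_1, …, y_b`.
-/

set_option autoImplicit false

open CategoryTheory AlgebraicGeometry Pool.Agent.Y116.UV Pool.Agent.N882.UE Pool.Agent.Q282.UK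
  Pool.Agent.Q282.UZ

namespace Pool.Agent.Results.MP_81b968_ag.PrincipalOpens

variable {k Ω : Type} [Field k] [Field Ω]

/-- Q1 over the field `k`: for all smooth varieties and all `i`, `j` the regulator is surjective onto the
Frobenius invariant elements. -/
def Question (T : Homology k Ω) : Prop :=
  ∀ X : Sch k, FT True X → Smooth X.hom → ∀ (i j : ℤ) (e : T.E X i j), T.frob X i j e = e →
    e ∈ Submodule.span Ω (Set.range (T.reg X i j))

/-- `TB` for all varieties of dimension at most `d`. -/
def AllDim (T : Homology k Ω) (d : ℕ) : Prop :=
  ∀ X : Sch k, FT True X → topologicalKrullDim X.left ≤ d → TB T X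

/-- `TB` for all smooth varieties of dimension at most `d`. -/
def SmoothDim (T : Homology k Ω) (d : ℕ) : Prop :=
  ∀ X : Sch k, FT True X → Smooth X.hom → topologicalKrullDim X.left ≤ d → TB T X

/-- `TB` for the principal opens `b_1 ⋯ b_r ≠ 0` of the affine spaces defined by bilinear forms `b_l`, such
that there are at most `m` variables `x` or at most `m` variables `y`. -/
def Variables (T : Homology k Ω) (m : ℕ) : Prop :=
  ∀ (a b r : ℕ) (t : Fin a → Fin b → Fin r → k), (a ≤ m ∨ b ≤ m) → TB T (opnS (bform t))

/-- `TB` for the principal opens `b_1 ⋯ b_r ≠ 0` of the affine spaces defined by at most `m` bilinear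
forms. -/
def Forms (T : Homology k Ω) (m : ℕ) : Prop :=
  ∀ (a b r : ℕ) (t : Fin a → Fin b → Fin r → k), r ≤ m → TB T (opnS (bform t))

/-- **Theorem.** Let `T` be motivic and `ℓ`-adic homology of the schemes over the finite field `k`. It is
known that `TB` is true for the schemes of dimension at most one (`curves`), and that Q1 over `k` implies
`TB` for all varieties over `k` (`known`).
(1) The following are equivalent: Q1 over `k`; `TB` for all varieties over `k`; `TB` for the principal open
subschemes `b_1 ⋯ b_r ≠ 0` of affine spaces defined by bilinear forms `b_l`.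
(2) If `k` is a prime field, it is enough to have `TB` for the principal opens defined by bilinear forms with
coefficients `1` and at most three terms.
(3) For every `d` the following are equivalent: `TB` for all varieties, singular or not, of dimension at
most `d`; for the smooth ones; for the principal opens `b_1 ⋯ b_r ≠ 0` of affine spaces of any dimension, any
`r`, with at most `d + 2` variables `x` or at most `d + 2` variables `y`; for the principal opens defined
by `r ≤ d + 2` bilinear forms in any numbers of variables.
(4) `TB` is true (so that all maps `c^{i,j}` are bijective) for the principal opens `b_1 ⋯ b_r ≠ 0` with at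
most three variables in one of the two blocks, and for those defined by `r ≤ 3` bilinear forms. -/
theorem result [Finite k] [CharZero Ω] (T : Homology k Ω) (hT : IsTheory T) (curves : AllDim T 1)
    (known : Question T → ∀ X : Sch k, FT True X → TB T X) :
    [Question T, (∀ X : Sch k, FT True X → TB T X),
      (∀ (a b r : ℕ) (t : Fin a → Fin b → Fin r → k), TB T (opnS (bform t)))].TFAE ∧
    ((Nat.card k).Prime → (Question T ↔ ∀ (a b r : ℕ) (E : Fin r → Finset (Fin a × Fin b)),
      (∀ l, (E l).card ≤ 3) → TB T (opnS fun l => few k (E l)))) ∧
    (∀ d : ℕ, [AllDim T d, SmoothDim T d, Variables T (d + 2), Forms T (d + 2)].TFAE) ∧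
    Variables T 3 ∧ Forms T 3 := by
  have h0 : TB T (aff k k) := by
    refine curves _ (ft_aff True) ?_
    rw [Pool.Agent.Z125.UN.topDim_aff, ringKrullDim_eq_zero_of_field]
    exact zero_le_one
  have hB := bnd_tb hT h0
  have hC := clo2_of_bnd hB
  have hQ : Question T ↔ ∀ X : Sch k, FT True X → TB T X :=
    ⟨known, fun h X hX _ i j e he => ((h X hX i j).1 e).mp he⟩
  have key : ∀ d : ℕ, [AllDim T d, SmoothDim T d, Variables T (d + 2), Forms T (d + 2)].TFAE := by
    intro d
    have h1 := gen_tfae hB d
    have h2 := opens_dim hB d
    tfae_have 1 ↔ 2 := h1.out 0 1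
    tfae_have 1 ↔ 3 := h2.out 0 1
    tfae_have 1 ↔ 4 := h2.out 0 2
    tfae_finish
  refine ⟨?_, fun hp => ?_, key, ?_, ?_⟩
  · tfae_have 1 ↔ 2 := hQ
    tfae_have 2 ↔ 3 := opens_bil hC
    tfae_finish
  · exact hQ.trans (opens_few (short_presents (int_surj hp)) hC)
  · exact ((key 1).out 0 2).mp curves
  · exact ((key 1).out 0 3).mp curves

end Pool.Agent.Results.MP_81b968_ag.PrincipalOpens
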